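import Mathlib

set_option autoImplicit false
open MeasureTheory

namespace Pool.Agent.H0.Flow

/-- One step of the completion time recursion.  `prev j = C_{i-1,j}` are the completion times of
the previous task on machines `1,…,m` (`prev 0` is the boundary value), `t j` is the operation time
of the current task on machine `j+1`.  Returns `j ↦ C_{i,j}`, with `C_{i,0} = 0` and
`C_{i,j} = max (C_{i-1,j}) (C_{i,j-1}) + t_j`. -/
def nextRow (prev t : ℕ → ℝ) : ℕ → ℝ
  | 0 => 0
  | j + 1 => max (prev (j + 1)) (nextRow prev t j) + t j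

/-- Completion times `C_{i,j}` for operation times `t i j` (task number `i+1` in the processing order,
machine number `j+1`), with boundary values `C_{0,j} = C_{i,0} = 0`. -/
def completion (t : ℕ → ℕ → ℝ) : ℕ → ℕ → ℝ
  | 0 => fun _ => 0
  | i + 1 => nextRow (completion t i) (t i)

/-- Operation times in processing order `π`, extended by `0` outside the `n × m` array. -/
def ordered {n m : ℕ} (T : Fin n → Fin m → ℝ) (π : Equiv.Perm (Fin n)) (i j : ℕ) : ℝ :=
  if h : i < n ∧ j < m then T (π ⟨i, h.1⟩) ⟨j, h.2⟩ else 0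

/-- Makespan `L^π_{m,n} = C_{n,m}` of the permutation schedule `π`. -/
def makespan {n m : ℕ} (T : Fin n → Fin m → ℝ) (π : Equiv.Perm (Fin n)) : ℝ :=
  completion (ordered T π) n m

/-- Optimal makespan `L^*_{m,n} = min_π L^π_{m,n}`. -/
noncomputable def optMakespan {n m : ℕ} (T : Fin n → Fin m → ℝ) : ℝ :=
  ⨅ π : Equiv.Perm (Fin n), makespan T π

/-- `E[α^*_{m,n}] = E[L^*_{m,n}] - (n+m-1) τ` where all operation times are i.i.d. with law `F` and
`τ` is the mean of `F`. -/
noncomputable def expError (F : Measure ℝ) (m n : ℕ) : ℝ :=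
  (∫ T : Fin n → Fin m → ℝ, optMakespan T ∂(Measure.pi fun _ => Measure.pi fun _ => F))
    - ((n : ℝ) + m - 1) * ∫ x, x ∂F

end Pool.Agent.H0.Flow
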