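import Mathlib

set_option autoImplicit false

namespace Pool.Agent.H0.Flow

variable {ι : Type*} [DecidableEq ι] {m : ℕ}

/-- feasible weights on `A` -/
structure Feas (x : ι → Fin m → ℝ) (A : Finset ι) (s : ℝ) (μ : ι → ℝ) : Prop where
  nonneg : ∀ i ∈ A, 0 ≤ μ i
  le_one : ∀ i ∈ A, μ i ≤ 1
  zero : ∀ j, ∑ i ∈ A, μ i * x i j = 0
  total : ∑ i ∈ A, μ i = s

open Classical in
/-- fractional set -/
noncomputable def frac (A : Finset ι) (μ : ι → ℝ) : Finset ι := A.filter fun i => 0 < μ i ∧ μ i < 1

/-- a linear relation supported on a large set -/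
theorem exists_rel (x : ι → Fin m → ℝ) (S : Finset ι) (hS : m + 1 < S.card) :
    ∃ c : ι → ℝ, (∀ i, i ∉ S → c i = 0) ∧ (∀ j, ∑ i ∈ S, c i * x i j = 0) ∧ ∑ i ∈ S, c i = 0 ∧ ∃ i ∈ S, c i ≠ 0 := by
  let f : (S → ℝ) →ₗ[ℝ] (Fin m → ℝ) × ℝ :=
    { toFun := fun c => ((fun j => ∑ i : S, c i * x i j), ∑ i : S, c i)
      map_add' := by
        intro a b
        refine Prod.ext ?_ ?_
        · funext j; simp [add_mul, Finset.sum_add_distrib]
        · simp [Finset.sum_add_distrib]
      map_smul' := by
        intro r a
        refine Prod.ext ?_ ?_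
        · funext j; simp [Finset.mul_sum, mul_assoc]
        · simp [Finset.mul_sum] }
  have hk : LinearMap.ker f ≠ ⊥ := by
    apply LinearMap.ker_ne_bot_of_finrank_lt
    simpa using hS
  obtain ⟨c, hc, hc0⟩ := (Submodule.ne_bot_iff _).1 hk
  rw [LinearMap.mem_ker] at hc
  have h1 := congrArg Prod.fst hc
  have h2 := congrArg Prod.snd hc
  obtain ⟨i, hi⟩ := Function.ne_iff.1 hc0
  refine ⟨fun i => if h : i ∈ S then c ⟨i, h⟩ else 0, ?_, ?_, ?_, ⟨i, i.2, ?_⟩⟩
  · intro i hi; simp [hi]
  · intro j
    have := congrFun h1 j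
    rw [← Finset.sum_coe_sort]
    simpa [f] using this
  · rw [← Finset.sum_coe_sort]
    simpa [f] using h2
  · simpa using hi

theorem frac_step (x : ι → Fin m → ℝ) (A : Finset ι) (s : ℝ) (μ : ι → ℝ) (h : Feas x A s μ)
    (hbig : m + 1 < (frac A μ).card) : ∃ μ', Feas x A s μ' ∧ (frac A μ').card < (frac A μ).card := by
  classical
  obtain ⟨c, hc1, hc2, hc3, i₁, hi₁, hci₁⟩ := exists_rel x (frac A μ) hbig
  have hsub : frac A μ ⊆ A := Finset.filter_subset _ _
  let τ : ι → ℝ := fun i => if 0 < c i then (1 - μ i) / c i else μ i / (- c i)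
  let S := (frac A μ).filter fun i => c i ≠ 0
  have hSne : S.Nonempty := ⟨i₁, by simp [S, hi₁, hci₁]⟩
  obtain ⟨i₀, hi₀, hmin⟩ := S.exists_min_image τ hSne
  have hfr : ∀ i ∈ frac A μ, 0 < μ i ∧ μ i < 1 := by
    intro i hi
    simp only [frac, Finset.mem_filter] at hi
    exact hi.2
  have hτpos : ∀ i ∈ S, 0 < τ i := by
    intro i hi
    simp only [S, Finset.mem_filter] at hi
    obtain ⟨h1, h2⟩ := hfr i hi.1
    simp only [τ]
    split_ifs with hpos
    · apply div_pos <;> linarith
    · have : c i < 0 := lt_of_le_of_ne (not_lt.1 hpos) hi.2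
      apply div_pos <;> linarith
  set t := τ i₀ with ht
  have htpos : 0 < t := hτpos i₀ hi₀
  let μ' : ι → ℝ := fun i => μ i + t * c i
  have hsumA : ∀ g : ι → ℝ, ∑ i ∈ A, c i * g i = ∑ i ∈ frac A μ, c i * g i := by
    intro g
    symm
    apply Finset.sum_subset hsub
    intro i _ hi
    rw [hc1 i hi, zero_mul]
  have hin : ∀ i ∈ A, 0 ≤ μ' i ∧ μ' i ≤ 1 := by
    intro i hi
    by_cases hif : i ∈ S
    · have hle := hmin i hif
      have hS' := hif
      simp only [S, Finset.mem_filter] at hS'
      obtain ⟨h1, h2⟩ := hfr i hS'.1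
      simp only [μ']
      by_cases hpos : 0 < c i
      · have : τ i = (1 - μ i) / c i := by simp only [τ, hpos, if_true]
        rw [this, le_div_iff₀ hpos] at hle
        constructor
        · have := mul_pos htpos hpos; linarith
        · linarith
      · have hneg : c i < 0 := lt_of_le_of_ne (not_lt.1 hpos) hS'.2
        have : τ i = μ i / (- c i) := by simp only [τ, hpos, if_false]
        rw [this, le_div_iff₀ (by linarith)] at hle
        constructor
        · linarith
        · have := mul_pos_of_neg_of_neg hneg (by linarith : -t < 0); nlinarith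
    · have : c i = 0 := by
        by_contra hne
        by_cases hff : i ∈ frac A μ
        · exact hif (by simp [S, hff, hne])
        · exact hne (hc1 i hff)
      simp only [μ', this, mul_zero, add_zero]
      exact ⟨h.nonneg i hi, h.le_one i hi⟩
  refine ⟨μ', ⟨fun i hi => (hin i hi).1, fun i hi => (hin i hi).2, ?_, ?_⟩, ?_⟩
  · intro j
    simp only [μ', add_mul, Finset.sum_add_distrib, h.zero j, zero_add]
    have := hsumA (fun i => x i j)
    have e : ∑ i ∈ A, t * c i * x i j = t * ∑ i ∈ A, c i * x i j := by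
      rw [Finset.mul_sum]; exact Finset.sum_congr rfl fun i _ => by ring
    rw [e, this, hc2 j, mul_zero]
  · simp only [μ', Finset.sum_add_distrib, h.total]
    have := hsumA (fun i => 1)
    simp only [mul_one] at this
    rw [← Finset.mul_sum, this, hc3, mul_zero, add_zero]
  · apply Finset.card_lt_card
    rw [Finset.ssubset_iff_of_subset]
    · refine ⟨i₀, ?_, ?_⟩
      · simp only [S, Finset.mem_filter] at hi₀
        exact hi₀.1
      · intro hmem
        simp only [frac, Finset.mem_filter] at hmem
        simp only [S, Finset.mem_filter] at hi₀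
        obtain ⟨_, h1, h2⟩ := hmem
        simp only [μ'] at h1 h2
        by_cases hpos : 0 < c i₀
        · have : t = (1 - μ i₀) / c i₀ := by rw [ht]; simp only [τ, hpos, if_true]
          rw [this, div_mul_cancel₀ _ hpos.ne'] at h2
          linarith
        · have hneg : c i₀ < 0 := lt_of_le_of_ne (not_lt.1 hpos) hi₀.2
          have : t = μ i₀ / (- c i₀) := by rw [ht]; simp only [τ, hpos, if_false]
          have h3' : t * (- c i₀) = μ i₀ := by
            rw [this]; exact div_mul_cancel₀ _ (by linarith : (- c i₀) ≠ 0)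
          have h3 : t * c i₀ = - μ i₀ := by linarith
          rw [h3] at h1
          linarith
    · intro i hi
      by_contra hnf
      have : c i = 0 := hc1 i hnf
      simp only [frac, Finset.mem_filter, μ', this, mul_zero, add_zero] at hi
      exact hnf (by simp only [frac, Finset.mem_filter]; exact hi)

theorem exists_small_frac (x : ι → Fin m → ℝ) (A : Finset ι) (s : ℝ) (μ : ι → ℝ) (h : Feas x A s μ) :
    ∃ μ', Feas x A s μ' ∧ (frac A μ').card ≤ m + 1 := by
  induction hn : (frac A μ).card using Nat.strong_induction_on generalizing μ with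
  | _ n ih =>
    by_cases hle : n ≤ m + 1
    · exact ⟨μ, h, by omega⟩
    · obtain ⟨μ', h', hlt⟩ := frac_step x A s μ h (by omega)
      exact ih _ (by omega) μ' h' rfl

theorem step (x : ι → Fin m → ℝ) (A : Finset ι) (hA : m < A.card) (μ : ι → ℝ) (h : Feas x A ((A.card : ℝ) - m) μ) :
    ∃ i ∈ A, ∃ μ', Feas x (A.erase i) (((A.erase i).card : ℝ) - m) μ' := by
  classical
  have hA' : (m : ℝ) < A.card := by exact_mod_cast hA
  have hAm1 : (m : ℝ) + 1 ≤ A.card := by exact_mod_cast hA
  -- rescale
  set r : ℝ := ((A.card : ℝ) - 1 - m) / ((A.card : ℝ) - m) with hr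
  have hpos : 0 < (A.card : ℝ) - m := by linarith
  have hr0 : 0 ≤ r := div_nonneg (by linarith) hpos.le
  have hr1 : r ≤ 1 := by rw [hr, div_le_one hpos]; linarith
  have h1 : Feas x A ((A.card : ℝ) - 1 - m) (fun i => r * μ i) := by
    refine ⟨fun i hi => mul_nonneg hr0 (h.nonneg i hi), fun i hi => ?_, fun j => ?_, ?_⟩
    · exact mul_le_one₀ hr1 (h.nonneg i hi) (h.le_one i hi)
    · have : ∑ i ∈ A, r * μ i * x i j = r * ∑ i ∈ A, μ i * x i j := by
        rw [Finset.mul_sum]; exact Finset.sum_congr rfl fun i _ => by ring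
      rw [this, h.zero j, mul_zero]
    · rw [← Finset.mul_sum, h.total, hr]
      field_simp
  obtain ⟨ν, hν, hνc⟩ := exists_small_frac x A _ _ h1
  have hex : ∃ i ∈ A, ν i = 0 := by
    by_contra hno
    push Not at hno
    have hνpos : ∀ i ∈ A, 0 < ν i := fun i hi => lt_of_le_of_ne (hν.nonneg i hi) (hno i hi).symm
    have hsplit : ∑ i ∈ A, ν i = ∑ i ∈ frac A ν, ν i + ∑ i ∈ A \ frac A ν, ν i := by
      rw [add_comm]
      exact (Finset.sum_sdiff (Finset.filter_subset _ _)).symm
    have h2 : ∑ i ∈ A \ frac A ν, ν i = ((A \ frac A ν).card : ℝ) := by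
      rw [Finset.card_eq_sum_ones, Nat.cast_sum]
      refine Finset.sum_congr rfl fun i hi => ?_
      simp only [frac, Finset.mem_sdiff, Finset.mem_filter, not_and, not_lt] at hi
      have h3 := hi.2 hi.1 (hνpos i hi.1)
      have h4 := hν.le_one i hi.1
      push_cast
      linarith
    have h3 : (A \ frac A ν).card = A.card - (frac A ν).card := Finset.card_sdiff_of_subset (Finset.filter_subset _ _)
    have h4 : (frac A ν).card ≤ A.card := Finset.card_le_card (Finset.filter_subset _ _)
    have h5 : (((A \ frac A ν).card : ℕ) : ℝ) = A.card - (frac A ν).card := by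
      rw [h3]; push_cast [h4]; rfl
    have h6 := hν.total
    rw [hsplit, h2, h5] at h6
    have h7 : ((frac A ν).card : ℝ) ≤ m + 1 := by exact_mod_cast hνc
    rcases (frac A ν).eq_empty_or_nonempty with he | hne
    · rw [he] at h6
      simp at h6
      have : (0:ℝ) ≤ m := Nat.cast_nonneg m
      linarith
    · have h8 : 0 < ∑ i ∈ frac A ν, ν i := by
        apply Finset.sum_pos _ hne
        intro i hi
        exact hνpos i (Finset.filter_subset _ _ hi)
      linarith
  obtain ⟨i, hi, hi0⟩ := hex
  refine ⟨i, hi, ν, ⟨fun k hk => hν.nonneg k (Finset.mem_of_mem_erase hk), fun k hk => hν.le_one k (Finset.mem_of_mem_erase hk), fun j => ?_, ?_⟩⟩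
  · have h9 := hν.zero j
    rw [← Finset.add_sum_erase A _ hi, hi0, zero_mul, zero_add] at h9
    exact h9
  · have h9 := hν.total
    rw [← Finset.add_sum_erase A _ hi, hi0, zero_add] at h9
    rw [h9, Finset.card_erase_of_mem hi]
    have : 1 ≤ A.card := by omega
    push_cast [this]
    ring

theorem bound_of_feas (x : ι → Fin m → ℝ) (A : Finset ι) (R : ℝ) (hR : ∀ i j, |x i j| ≤ R) (μ : ι → ℝ)
    (h : Feas x A ((A.card : ℝ) - m) μ) (j : Fin m) : |∑ i ∈ A, x i j| ≤ m * R := by
  have h1 : ∑ i ∈ A, x i j = ∑ i ∈ A, (1 - μ i) * x i j := by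
    simp only [sub_mul, one_mul, Finset.sum_sub_distrib, h.zero j, sub_zero]
  rw [h1]
  calc |∑ i ∈ A, (1 - μ i) * x i j| ≤ ∑ i ∈ A, |(1 - μ i) * x i j| := Finset.abs_sum_le_sum_abs _ _
    _ ≤ ∑ i ∈ A, (1 - μ i) * R := by
        refine Finset.sum_le_sum fun i hi => ?_
        rw [abs_mul, abs_of_nonneg (by have := h.le_one i hi; linarith)]
        exact mul_le_mul_of_nonneg_left (hR i j) (by have := h.le_one i hi; linarith)
    _ = m * R := by
        rw [← Finset.sum_mul, Finset.sum_sub_distrib, h.total]
        simp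

theorem exists_list (x : ι → Fin m → ℝ) (R : ℝ) (hR : ∀ i j, |x i j| ≤ R) (hR0 : 0 ≤ R) (A : Finset ι)
    (hA : A.card ≤ m ∨ ∃ μ, Feas x A ((A.card : ℝ) - m) μ) :
    ∃ l : List ι, l.Nodup ∧ l.toFinset = A ∧ ∀ k, ∀ j, |((l.take k).map (fun i => x i j)).sum| ≤ m * R := by
  induction hn : A.card using Nat.strong_induction_on generalizing A with
  | _ n ih =>
    by_cases hle : A.card ≤ m
    · refine ⟨A.toList, A.nodup_toList, by simp, fun k j => ?_⟩
      have h1 : ∀ l : List ι, |(l.map (fun i => x i j)).sum| ≤ l.length * R := by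
        intro l
        induction l with
        | nil => simp
        | cons a l ihl =>
          simp only [List.map_cons, List.sum_cons, List.length_cons]
          push_cast
          calc |x a j + (l.map (fun i => x i j)).sum| ≤ |x a j| + |(l.map (fun i => x i j)).sum| := abs_add_le _ _
            _ ≤ R + l.length * R := add_le_add (hR a j) ihl
            _ = _ := by ring
      refine (h1 _).trans ?_
      have h2 : (A.toList.take k).length ≤ m := by
        rw [List.length_take, Finset.length_toList]; omega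
      have h3 : ((A.toList.take k).length : ℝ) ≤ m := by exact_mod_cast h2
      exact mul_le_mul_of_nonneg_right h3 hR0
    · obtain ⟨μ, hμ⟩ := hA.resolve_left hle
      obtain ⟨i, hi, μ', hμ'⟩ := step x A (by omega) μ hμ
      have hc : (A.erase i).card < A.card := Finset.card_erase_lt_of_mem hi
      obtain ⟨l, hl1, hl2, hl3⟩ := ih _ (by omega) (A.erase i) (Or.inr ⟨μ', hμ'⟩) rfl
      have hil : i ∉ l := by
        intro hmem
        have : i ∈ A.erase i := by rw [← hl2]; simpa using hmem
        simp at this
      refine ⟨l ++ [i], ?_, ?_, ?_⟩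
      · rw [List.nodup_append]
        refine ⟨hl1, by simp, ?_⟩
        intro a ha b hb
        simp only [List.mem_singleton] at hb
        subst hb
        rintro rfl
        exact hil ha
      · ext a
        simp only [List.mem_toFinset, List.mem_append, List.mem_singleton]
        have : a ∈ l ↔ a ∈ A.erase i := by rw [← hl2]; simp
        rw [this]
        simp only [Finset.mem_erase]
        by_cases hai : a = i
        · subst hai; simp [hi]
        · simp [hai]
      · intro k j
        by_cases hk : k ≤ l.length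
        · rw [List.take_append_of_le_length hk]
          exact hl3 k j
        · have : (l ++ [i]).take k = l ++ [i] := by
            apply List.take_of_length_le
            simp; omega
          rw [this]
          have h5 := bound_of_feas x A R hR μ hμ j
          have h6 : ((l ++ [i]).map (fun i => x i j)).sum = ∑ i ∈ A, x i j := by
            rw [List.map_append, List.sum_append]
            simp only [List.map_cons, List.map_nil, List.sum_cons, List.sum_nil, add_zero]
            rw [← Finset.sum_erase_add A _ hi, ← hl2, List.sum_toFinset _ hl1]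
          rw [h6]
          exact h5

end Pool.Agent.H0.Flow
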