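import Mathlib
import Pool.Agent.H0.Flow.Defs
import Pool.Agent.H0.Flow.Steinitz

set_option autoImplicit false

namespace Pool.Agent.H0.Flow

theorem completion_bound (t : ℕ → ℕ → ℝ) (a : ℕ → ℝ) (as β : ℝ) (n m : ℕ) (ha : ∀ j < m, a j ≤ as)
    (has : 0 ≤ as) (hβ : 0 ≤ β)
    (hP : ∀ k ≤ n, ∀ j < m, |∑ i ∈ Finset.range k, (t i j - a j)| ≤ β) :
    ∀ i ≤ n, ∀ j ≤ m, 0 < i → 0 < j → completion t i j ≤ as * ((i : ℝ) + j - 1) + (2 * j - 1) * β + ∑ i' ∈ Finset.range i, (t i' (j-1) - a (j-1)) := by
  intro i
  induction i with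
  | zero => intro _ j _ h; omega
  | succ i ihi =>
    intro hi j
    induction j with
    | zero => intro _ _ h; omega
    | succ j ihj =>
      intro hj _ _
      have hstep : completion t (i+1) (j+1) = max (completion t i (j+1)) (completion t (i+1) j) + t i j := rfl
      rw [hstep]
      have hsum : ∑ i' ∈ Finset.range (i+1), (t i' j - a j) = ∑ i' ∈ Finset.range i, (t i' j - a j) + (t i j - a j) :=
        Finset.sum_range_succ _ _
      have haj := ha j (by omega)
      have hPi := hP i (by omega) j (by omega)
      have hPi2 := abs_le.1 hPi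
      have hcast : (0:ℝ) ≤ j := Nat.cast_nonneg j
      have hcasti : (0:ℝ) ≤ i := Nat.cast_nonneg i
      have h1 : completion t i (j+1) ≤ as * ((i:ℝ) + j) + (2*j+1)*β + ∑ i' ∈ Finset.range i, (t i' j - a j) := by
        rcases Nat.eq_zero_or_pos i with h0 | hpos
        · subst h0
          simp only [completion, Finset.range_zero, Finset.sum_empty, add_zero, Nat.cast_zero, zero_add]
          positivity
        · have := ihi (by omega) (j+1) hj hpos (by omega)
          simp only [Nat.add_sub_cancel] at this
          push_cast at this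
          linarith
      have h2 : completion t (i+1) j ≤ as * ((i:ℝ) + j) + (2*j+1)*β + ∑ i' ∈ Finset.range i, (t i' j - a j) := by
        rcases Nat.eq_zero_or_pos j with h0 | hpos
        · subst h0
          have : completion t (i+1) 0 = 0 := rfl
          rw [this]
          simp only [Nat.cast_zero, mul_zero, zero_add, one_mul, add_zero]
          have : 0 ≤ as * i := by positivity
          linarith
        · have := ihj (by omega) (by omega) hpos
          have hP2 := abs_le.1 (hP (i+1) hi (j-1) (by omega))
          push_cast at this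
          nlinarith
      simp only [Nat.add_sub_cancel]
      rw [hsum]
      push_cast
      have h3 := max_le h1 h2
      linarith

/-- deterministic bound for the optimal order -/
theorem opt_bound {n m : ℕ} (hn : 0 < n) (hm : 0 < m) (T : Fin n → Fin m → ℝ) (R as : ℝ) (hT0 : ∀ i j, 0 ≤ T i j) (hTR : ∀ i j, T i j ≤ R)
    (has : ∀ j, (∑ i, T i j) / n ≤ as) : optMakespan T ≤ as * ((n : ℝ) + m - 1) + 2 * m * (m * R) := by
  classical
  have hn' : (0:ℝ) < n := by exact_mod_cast hn
  let a : Fin m → ℝ := fun j => (∑ i, T i j) / n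
  have ha0 : ∀ j, 0 ≤ a j := fun j => div_nonneg (Finset.sum_nonneg fun i _ => hT0 i j) hn'.le
  have haR : ∀ j, a j ≤ R := by
    intro j
    simp only [a]
    rw [div_le_iff₀ hn']
    calc ∑ i, T i j ≤ ∑ i : Fin n, R := Finset.sum_le_sum fun i _ => hTR i j
      _ = R * n := by simp [mul_comm]
  have hR0 : 0 ≤ R := le_trans (hT0 ⟨0, hn⟩ ⟨0, hm⟩) (hTR _ _)
  have has0 : 0 ≤ as := le_trans (ha0 ⟨0, hm⟩) (has _)
  let x : Fin n → Fin m → ℝ := fun i j => T i j - a j
  have hx : ∀ i j, |x i j| ≤ R := by
    intro i j
    simp only [x]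
    rw [abs_le]
    constructor <;> linarith [hT0 i j, hTR i j, ha0 j, haR j]
  have hx0 : ∀ j, ∑ i, x i j = 0 := by
    intro j
    simp only [x, Finset.sum_sub_distrib, a]
    simp
    field_simp
    simp
  obtain ⟨l, hl1, hl2, hl3⟩ := exists_list x R hx hR0 (Finset.univ : Finset (Fin n)) (by
    by_cases hnm : n ≤ m
    · left; simpa using hnm
    · right
      have hmn : m ≤ n := by omega
      have hmn' : (m:ℝ) ≤ n := by exact_mod_cast hmn
      refine ⟨fun _ => ((n:ℝ) - m) / n, ⟨fun _ _ => div_nonneg (by linarith) hn'.le, fun _ _ => ?_, fun j => ?_, ?_⟩⟩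
      · rw [div_le_one hn']; have : (0:ℝ) ≤ m := Nat.cast_nonneg m; linarith
      · rw [← Finset.mul_sum, hx0 j, mul_zero]
      · simp; field_simp)
  have hlen : l.length = n := by
    have := List.toFinset_card_of_nodup hl1
    rw [hl2] at this
    simpa using this.symm
  have hinj : Function.Injective (fun i : Fin n => l.get (i.cast hlen.symm)) := by
    intro i j hij
    have := (List.nodup_iff_injective_get.1 hl1) hij
    simpa [Fin.ext_iff] using this
  let π : Equiv.Perm (Fin n) := Equiv.ofBijective _ (Finite.injective_iff_bijective.1 hinj)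
  have hπ : ∀ (i : ℕ) (hi : i < n), π ⟨i, hi⟩ = l.get ⟨i, by omega⟩ := by
    intro i hi; rfl
  let a' : ℕ → ℝ := fun j => if h : j < m then a ⟨j, h⟩ else 0
  have hP : ∀ k ≤ n, ∀ j < m, |∑ i ∈ Finset.range k, (ordered T π i j - a' j)| ≤ m * R := by
    intro k hk j hj
    have h1 := hl3 k ⟨j, hj⟩
    have h2 : ((l.take k).map (fun i => x i ⟨j, hj⟩)).sum = ∑ i ∈ Finset.range k, (ordered T π i j - a' j) := by
      clear h1
      induction k with
      | zero => simp
      | succ k ih =>
        rw [Finset.sum_range_succ, ← ih (by omega)]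
        have hkl : k < l.length := by omega
        rw [List.take_succ_eq_append_getElem hkl, List.map_append, List.sum_append]
        simp only [List.map_cons, List.map_nil, List.sum_cons, List.sum_nil, add_zero]
        congr 1
        have h3 : k < n ∧ j < m := ⟨by omega, hj⟩
        simp only [ordered, h3, and_self, dif_pos, a', hj, x, hπ]
        rfl
    rw [← h2]
    exact h1
  have hcb := completion_bound (ordered T π) a' as (m * R) n m (by
    intro j hj
    simp only [a', hj, dif_pos]
    exact has _) has0 (by positivity) hP n le_rfl m le_rfl hn hm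
  have h4 := (abs_le.1 (hP n le_rfl (m-1) (by omega))).2
  have h5 : makespan T π ≤ as * ((n : ℝ) + m - 1) + 2 * m * (m * R) := by
    unfold makespan
    nlinarith
  refine le_trans (ciInf_le ?_ π) h5
  exact Set.Finite.bddBelow (Set.finite_range _)

end Pool.Agent.H0.Flow
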