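import Mathlib
import Pool.Agent.H0.Flow.Det

set_option autoImplicit false
open MeasureTheory ProbabilityTheory Filter Topology

namespace Pool.Agent.H0.Flow

section nonneg

theorem nextRow_nonneg (prev t : ℕ → ℝ) (ht : ∀ j, 0 ≤ t j) (j : ℕ) : 0 ≤ nextRow prev t j := by
  induction j with
  | zero => exact le_rfl
  | succ j ih =>
    change 0 ≤ max (prev (j+1)) (nextRow prev t j) + t j
    have := le_max_right (prev (j+1)) (nextRow prev t j)
    linarith [ht j]

theorem completion_nonneg (t : ℕ → ℕ → ℝ) (ht : ∀ i j, 0 ≤ t i j) (i j : ℕ) : 0 ≤ completion t i j := by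
  induction i generalizing j with
  | zero => exact le_rfl
  | succ i _ => exact nextRow_nonneg _ _ (ht i) j

theorem opt_nonneg {n m : ℕ} (T : Fin n → Fin m → ℝ) (hT : ∀ i j, 0 ≤ T i j) : 0 ≤ optMakespan T := by
  refine Real.iInf_nonneg fun π => ?_
  refine completion_nonneg _ (fun i j => ?_) _ _
  unfold ordered
  split_ifs
  · exact hT _ _
  · exact le_rfl

theorem measurable_completion {n m : ℕ} (π : Equiv.Perm (Fin n)) (i j : ℕ) :
    Measurable (fun T : Fin n → Fin m → ℝ => completion (ordered T π) i j) := by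
  have ho : ∀ i j, Measurable (fun T : Fin n → Fin m → ℝ => ordered T π i j) := by
    intro i j
    unfold ordered
    split_ifs
    · fun_prop
    · fun_prop
  induction i generalizing j with
  | zero => exact measurable_const
  | succ i ih =>
    induction j with
    | zero => exact measurable_const
    | succ j ihj => exact ((ih (j+1)).max ihj).add (ho i j)

theorem measurable_opt {n m : ℕ} : Measurable (fun T : Fin n → Fin m → ℝ => optMakespan T) := by
  unfold optMakespan
  exact Measurable.iInf fun π => measurable_completion π n m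

end nonneg

variable (F : Measure ℝ) [IsProbabilityMeasure F] {n m : ℕ}

/-- law of the array -/
noncomputable abbrev P (n m : ℕ) : Measure (Fin n → Fin m → ℝ) := Measure.pi fun _ => Measure.pi fun _ => F

theorem mp_eval (i : Fin n) (j : Fin m) : MeasurePreserving (fun T : Fin n → Fin m → ℝ => T i j) (P F n m) F := by
  have h1 := measurePreserving_eval (fun _ : Fin n => Measure.pi fun _ : Fin m => F) i
  have h2 := measurePreserving_eval (fun _ : Fin m => F) j
  exact h2.comp h1

theorem integral_mp {α β : Type*} [MeasurableSpace α] [MeasurableSpace β] {μ : Measure α} {ν : Measure β} {f : α → β}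
    (h : MeasurePreserving f μ ν) {g : β → ℝ} (hg : AEStronglyMeasurable g ν) : ∫ x, g (f x) ∂μ = ∫ y, g y ∂ν := by
  conv_rhs => rw [← h.map_eq]
  rw [integral_map h.measurable.aemeasurable]
  rwa [h.map_eq]

/-- centred column sum -/
noncomputable def cs (g : ℝ → ℝ) (j : Fin m) (T : Fin n → Fin m → ℝ) : ℝ := ∑ i, (g (T i j) - ∫ x, g x ∂F)

theorem cs_sq (g : ℝ → ℝ) (hg : MemLp g 2 F) (hgm : Measurable g) (j : Fin m) :
    Integrable (fun T => (cs F g j T)^2) (P F n m) ∧ ∫ T, (cs F g j T)^2 ∂(P F n m) ≤ n * ∫ x, (g x)^2 ∂F := by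
  have hm : ∀ i : Fin n, MemLp (fun T : Fin n → Fin m → ℝ => g (T i j)) 2 (P F n m) := fun i =>
    hg.comp_measurePreserving (mp_eval F i j)
  have hcs : MemLp (fun T => cs F g j T) 2 (P F n m) := by
    unfold cs
    exact memLp_finsetSum _ fun i _ => (hm i).sub (memLp_const _)
  refine ⟨hcs.integrable_sq, ?_⟩
  have hev := measurePreserving_eval (fun _ : Fin m => F) j
  have hmrow : MemLp (fun r : Fin m → ℝ => g (r j) - ∫ x, g x ∂F) 2 (Measure.pi fun _ : Fin m => F) :=
    (hg.comp_measurePreserving hev).sub (memLp_const _)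
  have hmean : ∫ T, cs F g j T ∂(P F n m) = 0 := by
    unfold cs
    rw [integral_finsetSum]
    · apply Finset.sum_eq_zero
      intro i _
      rw [integral_sub ((hm i).integrable (by norm_num)) (integrable_const _), integral_mp (mp_eval F i j) hgm.aestronglyMeasurable]
      simp
    · intro i _
      exact ((hm i).integrable (by norm_num)).sub (integrable_const _)
  have hvar : Var[fun T => cs F g j T; P F n m] = ∫ T, (cs F g j T)^2 ∂(P F n m) := by
    rw [variance_of_integral_eq_zero hcs.aestronglyMeasurable.aemeasurable hmean]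
  have hsum : (fun T => cs F g j T) = ∑ i : Fin n, fun T : Fin n → Fin m → ℝ => (fun r : Fin m → ℝ => g (r j) - ∫ x, g x ∂F) (T i) := by
    funext T; simp [cs]
  have hv2 : Var[fun T => cs F g j T; P F n m] = ∑ i : Fin n, Var[fun r : Fin m → ℝ => g (r j) - ∫ x, g x ∂F; Measure.pi fun _ : Fin m => F] := by
    rw [hsum]
    exact variance_sum_pi (X := fun _ : Fin n => fun r : Fin m → ℝ => g (r j) - ∫ x, g x ∂F) fun _ => hmrow
  have hv3 : Var[fun r : Fin m → ℝ => g (r j) - ∫ x, g x ∂F; Measure.pi fun _ : Fin m => F] ≤ ∫ x, (g x)^2 ∂F := by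
    have hA : AEStronglyMeasurable (fun r : Fin m → ℝ => g (r j)) (Measure.pi fun _ : Fin m => F) :=
      (hg.comp_measurePreserving hev).aestronglyMeasurable
    rw [variance_sub_const hA]
    refine (variance_le_expectation_sq hA).trans ?_
    apply le_of_eq
    exact integral_mp hev (g := fun x => (g x)^2) (hgm.pow_const 2).aestronglyMeasurable
  rw [← hvar, hv2]
  calc ∑ i : Fin n, Var[fun r : Fin m → ℝ => g (r j) - ∫ x, g x ∂F; Measure.pi fun _ : Fin m => F]
      ≤ ∑ i : Fin n, ∫ x, (g x)^2 ∂F := Finset.sum_le_sum fun _ _ => hv3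
    _ = _ := by simp

theorem cs_exp (g : ℝ → ℝ) (B : ℝ) (hB : 0 ≤ B) (hg : ∀ᵐ x ∂F, g x ∈ Set.Icc 0 B) (hgm : Measurable g) (j : Fin m) (t : ℝ) :
    Integrable (fun T => Real.exp (t * cs F g j T)) (P F n m) ∧
      ∫ T, Real.exp (t * cs F g j T) ∂(P F n m) ≤ Real.exp (n * (B/2)^2 * t^2 / 2) := by
  have hrow : HasSubgaussianMGF (fun r : Fin m → ℝ => g (r j) - ∫ x, g x ∂F) ((‖B - 0‖₊ / 2) ^ 2) (Measure.pi fun _ : Fin m => F) := by
    have hev := measurePreserving_eval (fun _ : Fin m => F) j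
    have h1 := hasSubgaussianMGF_of_mem_Icc (μ := Measure.pi fun _ : Fin m => F) (X := fun r : Fin m → ℝ => g (r j)) (a := 0) (b := B)
      (hgm.comp (measurable_pi_apply j)).aemeasurable (hev.quasiMeasurePreserving.ae hg)
    have h2 : ∫ r : Fin m → ℝ, g (r j) ∂(Measure.pi fun _ : Fin m => F) = ∫ x, g x ∂F := integral_mp hev hgm.aestronglyMeasurable
    simpa [h2] using h1
  have hind : iIndepFun (fun (i : Fin n) (T : Fin n → Fin m → ℝ) => (fun r : Fin m → ℝ => g (r j) - ∫ x, g x ∂F) (T i)) (P F n m) :=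
    iIndepFun_pi (X := fun _ : Fin n => fun r : Fin m → ℝ => g (r j) - ∫ x, g x ∂F) fun _ => ((hgm.comp (measurable_pi_apply j)).sub measurable_const).aemeasurable
  have hi : ∀ i : Fin n, HasSubgaussianMGF (fun (T : Fin n → Fin m → ℝ) => (fun r : Fin m → ℝ => g (r j) - ∫ x, g x ∂F) (T i)) ((‖B - 0‖₊ / 2) ^ 2) (P F n m) := by
    intro i
    have hmp := measurePreserving_eval (fun _ : Fin n => Measure.pi fun _ : Fin m => F) i
    have : HasSubgaussianMGF (fun r : Fin m → ℝ => g (r j) - ∫ x, g x ∂F) ((‖B - 0‖₊ / 2) ^ 2) ((P F n m).map (Function.eval i)) := by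
      rw [hmp.map_eq]; exact hrow
    exact HasSubgaussianMGF.of_map hmp.measurable.aemeasurable this
  have hs := HasSubgaussianMGF.sum_of_iIndepFun hind (c := fun _ => (‖B - 0‖₊ / 2) ^ 2) (s := Finset.univ) fun i _ => hi i
  refine ⟨hs.integrable_exp_mul t, ?_⟩
  have h3 := hs.mgf_le t
  unfold mgf at h3
  refine h3.trans (Real.exp_le_exp.2 ?_)
  apply le_of_eq
  simp [abs_of_nonneg hB]


def u (B x : ℝ) : ℝ := min x B
def v (B x : ℝ) : ℝ := max (x - B) 0

theorem u_add_v (B x : ℝ) : u B x + v B x = x := by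
  unfold u v
  rcases le_total x B with h | h
  · rw [min_eq_left h, max_eq_right (by linarith)]; ring
  · rw [min_eq_right h, max_eq_left (by linarith)]; ring

theorem measurable_u (B : ℝ) : Measurable (u B) := by unfold u; fun_prop
theorem measurable_v (B : ℝ) : Measurable (v B) := by unfold v; fun_prop

theorem memLp_v (hF : MemLp id 2 F) (B : ℝ) (hB : 0 ≤ B) : MemLp (v B) 2 F := by
  refine hF.mono (measurable_v B).aestronglyMeasurable (Eventually.of_forall fun x => ?_)
  simp only [v, id, Real.norm_eq_abs]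
  rw [abs_of_nonneg (le_max_right _ _)]
  refine max_le ?_ (abs_nonneg _)
  have := le_abs_self x
  linarith

theorem memLp_u (hF : MemLp id 2 F) (B : ℝ) (hB : 0 ≤ B) : MemLp (u B) 2 F := by
  have : u B = fun x => x - v B x := by
    funext x; have := u_add_v B x; linarith
  rw [this]
  exact hF.sub (memLp_v F hF B hB)

theorem affine2 {Ω : Type*} [MeasurableSpace Ω] {μ : Measure Ω} [IsProbabilityMeasure μ] {Y W : Ω → ℝ}
    (hY : Integrable Y μ) (hW : Integrable W μ) (a b c : ℝ) :
    Integrable (fun T => a * Y T + b * W T + c) μ ∧ ∫ T, (a * Y T + b * W T + c) ∂μ = a * ∫ T, Y T ∂μ + b * ∫ T, W T ∂μ + c := by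
  have h1 : Integrable (fun T => a * Y T) μ := hY.const_mul a
  have h2 : Integrable (fun T => b * W T) μ := hW.const_mul b
  have h3 : Integrable (fun T => a * Y T + b * W T) μ := h1.add h2
  refine ⟨h3.add (integrable_const c), ?_⟩
  rw [integral_add h3 (integrable_const c), integral_add h1 h2, integral_const_mul, integral_const_mul]
  simp

set_option maxHeartbeats 1000000 in
theorem main_bound (h0 : ∀ᵐ x ∂F, 0 ≤ x) (hF : MemLp id 2 F) (hm : 0 < m) (hmn : m ≤ n)
    (B δ B' δ' : ℝ) (hB : 0 < B) (hδ : 0 < δ) (hB' : 0 ≤ B') (hδ' : 0 < δ')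
    (hv : ∫ x, (v B x)^2 ∂F ≤ δ^2) (hv' : ∫ x, (v B' x)^2 ∂F ≤ δ'^2) :
    Integrable (fun T : Fin n → Fin m → ℝ => optMakespan T) (P F n m) ∧
    expError F m n ≤ 2 * (B * Real.sqrt n * (Real.log m + 1/8)) + 2 * (δ * Real.sqrt (m * n)) + 2 * m^2 * B'
      + 2 * m^2 * (δ' * Real.sqrt (m * n)) := by
  have hn : 0 < n := by omega
  have hn' : (0:ℝ) < n := by exact_mod_cast hn
  have hm' : (0:ℝ) < m := by exact_mod_cast hm
  have hmn' : (m:ℝ) ≤ n := by exact_mod_cast hmn
  have hm1 : (1:ℝ) ≤ m := by exact_mod_cast hm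
  have hF1 : Integrable (fun x : ℝ => x) F := hF.integrable (by norm_num)
  set τ := ∫ x, x ∂F with hτ
  have hτ0 : 0 ≤ τ := integral_nonneg_of_ae h0
  have huint : Integrable (u B) F := (memLp_u F hF B hB.le).integrable (by norm_num)
  have hvint : Integrable (v B) F := (memLp_v F hF B hB.le).integrable (by norm_num)
  have hτuv : τ = ∫ x, u B x ∂F + ∫ x, v B x ∂F := by
    rw [← integral_add huint hvint]
    simp only [u_add_v, hτ]
  set r := Real.sqrt (m * n) with hr
  have hr0 : 0 < r := Real.sqrt_pos.2 (by positivity)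
  have hr2 : r^2 = m * n := Real.sq_sqrt (by positivity)
  set q := Real.sqrt n with hq
  have hq0 : 0 < q := Real.sqrt_pos.2 hn'
  have hq2 : q^2 = n := Real.sq_sqrt hn'.le
  set t := 1 / (B * q) with ht
  have ht0 : 0 < t := by positivity
  set K := (m:ℝ) * Real.exp (n * (B/2)^2 * t^2 / 2) with hK
  have hK0 : 0 < K := by positivity
  have hlogK : (1/t) * Real.log K = B * q * (Real.log m + 1/8) := by
    rw [hK, Real.log_mul hm'.ne' (Real.exp_pos _).ne', Real.log_exp, ht]
    rw [← hq2]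
    field_simp
    ring
  let Y : (Fin n → Fin m → ℝ) → ℝ := fun T => ∑ j, Real.exp (t * cs F (u B) j T)
  let W : (Fin n → Fin m → ℝ) → ℝ := fun T => ∑ j, (cs F (v B) j T)^2
  let W' : (Fin n → Fin m → ℝ) → ℝ := fun T => ∑ i, ∑ j, (v B' (T i j))^2
  have hae : ∀ᵐ x ∂F, u B x ∈ Set.Icc 0 B := by
    filter_upwards [h0] with x hx
    exact ⟨le_min hx hB.le, min_le_right _ _⟩
  have hYint : Integrable Y (P F n m) := integrable_finset_sum _ fun j _ => (cs_exp F (u B) B hB.le hae (measurable_u B) j t).1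
  have hWint : Integrable W (P F n m) := integrable_finset_sum _ fun j _ => (cs_sq F (v B) (memLp_v F hF B hB.le) (measurable_v B) j).1
  have hv'2 : Integrable (fun x => (v B' x)^2) F := (memLp_v F hF B' hB').integrable_sq
  have hW'int : Integrable W' (P F n m) := integrable_finset_sum _ fun i _ => integrable_finset_sum _ fun j _ =>
    ((mp_eval F i j).integrable_comp hv'2.aestronglyMeasurable).2 hv'2
  have hYE : ∫ T, Y T ∂(P F n m) ≤ K := by
    simp only [Y]
    rw [integral_finset_sum _ fun j _ => (cs_exp F (u B) B hB.le hae (measurable_u B) j t).1]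
    calc ∑ j : Fin m, ∫ T, Real.exp (t * cs F (u B) j T) ∂(P F n m) ≤ ∑ j : Fin m, Real.exp (n * (B/2)^2 * t^2 / 2) :=
          Finset.sum_le_sum fun j _ => (cs_exp F (u B) B hB.le hae (measurable_u B) j t).2
      _ = K := by simp [hK]
  have hWE : ∫ T, W T ∂(P F n m) ≤ (δ * r)^2 := by
    simp only [W]
    rw [integral_finset_sum _ fun j _ => (cs_sq F (v B) (memLp_v F hF B hB.le) (measurable_v B) j).1]
    calc ∑ j : Fin m, ∫ T, (cs F (v B) j T)^2 ∂(P F n m) ≤ ∑ j : Fin m, (n * ∫ x, (v B x)^2 ∂F) :=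
          Finset.sum_le_sum fun j _ => (cs_sq F (v B) (memLp_v F hF B hB.le) (measurable_v B) j).2
      _ = m * n * ∫ x, (v B x)^2 ∂F := by simp; ring
      _ ≤ m * n * δ^2 := by gcongr
      _ = (δ * r)^2 := by rw [mul_pow, hr2]; ring
  have hW'E : ∫ T, W' T ∂(P F n m) ≤ (δ' * r)^2 := by
    simp only [W']
    have hint2 : ∀ i : Fin n, ∀ j : Fin m, Integrable (fun T : Fin n → Fin m → ℝ => (v B' (T i j))^2) (P F n m) := fun i j =>
      ((mp_eval F i j).integrable_comp hv'2.aestronglyMeasurable).2 hv'2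
    rw [integral_finset_sum _ fun i _ => integrable_finset_sum _ fun j _ => hint2 i j]
    have h1 : ∀ i : Fin n, ∫ T, ∑ j, (v B' (T i j))^2 ∂(P F n m) = m * ∫ x, (v B' x)^2 ∂F := by
      intro i
      rw [integral_finset_sum _ fun j _ => hint2 i j]
      have : ∀ j : Fin m, ∫ T, (v B' (T i j))^2 ∂(P F n m) = ∫ x, (v B' x)^2 ∂F := fun j =>
        integral_mp (mp_eval F i j) (g := fun x => (v B' x)^2) hv'2.aestronglyMeasurable
      simp [this]
    simp only [h1]
    calc ∑ i : Fin n, (m * ∫ x, (v B' x)^2 ∂F) = m * n * ∫ x, (v B' x)^2 ∂F := by simp; ring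
      _ ≤ m * n * δ'^2 := by gcongr
      _ = (δ' * r)^2 := by rw [mul_pow, hr2]; ring
  let M : (Fin n → Fin m → ℝ) → ℝ := fun T => (1/(t*K)) * Y T + (1 / (2 * (δ * r))) * W T + ((1/t) * (Real.log K - 1) + (δ * r)/2)
  let R : (Fin n → Fin m → ℝ) → ℝ := fun T => (1 / (2 * (δ' * r))) * W' T + 0 * W' T + (B' + (δ' * r)/2)
  let U : (Fin n → Fin m → ℝ) → ℝ := fun T => (((n:ℝ) + m - 1)/n) * M T + (2 * m * m) * R T + τ * ((n:ℝ) + m - 1)
  obtain ⟨hMint, hMI⟩ := affine2 hYint hWint (1/(t*K)) (1 / (2 * (δ * r))) ((1/t) * (Real.log K - 1) + (δ * r)/2)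
  obtain ⟨hRint, hRI⟩ := affine2 hW'int hW'int (1 / (2 * (δ' * r))) 0 (B' + (δ' * r)/2)
  obtain ⟨hUint, hUE⟩ := affine2 (Y := M) (W := R) hMint hRint (((n:ℝ) + m - 1)/n) (2 * m * m) (τ * ((n:ℝ) + m - 1))
  have hME : ∫ T, M T ∂(P F n m) ≤ B * q * (Real.log m + 1/8) + δ * r := by
    change ∫ T, ((1/(t*K)) * Y T + (1 / (2 * (δ * r))) * W T + ((1/t) * (Real.log K - 1) + (δ * r)/2)) ∂(P F n m) ≤ _
    rw [hMI]
    have h1 : (1/(t*K)) * (∫ T, Y T ∂(P F n m)) ≤ 1/t := by
      calc (1/(t*K)) * (∫ T, Y T ∂(P F n m)) ≤ (1/(t*K)) * K := by gcongr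
        _ = 1/t := by field_simp
    have h2 : (1 / (2 * (δ * r))) * (∫ T, W T ∂(P F n m)) ≤ (δ * r)/2 := by
      calc (1 / (2 * (δ * r))) * (∫ T, W T ∂(P F n m)) ≤ (1 / (2 * (δ * r))) * (δ * r)^2 := by gcongr
        _ = (δ * r)/2 := by field_simp
    have h3 : (1/t) * (Real.log K - 1) = (1/t) * Real.log K - 1/t := by ring
    rw [h3, hlogK]
    linarith
  have hRE : ∫ T, R T ∂(P F n m) ≤ B' + δ' * r := by
    change ∫ T, ((1 / (2 * (δ' * r))) * W' T + 0 * W' T + (B' + (δ' * r)/2)) ∂(P F n m) ≤ _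
    rw [hRI]
    have h2 : (1 / (2 * (δ' * r))) * (∫ T, W' T ∂(P F n m)) ≤ (δ' * r)/2 := by
      calc (1 / (2 * (δ' * r))) * (∫ T, W' T ∂(P F n m)) ≤ (1 / (2 * (δ' * r))) * (δ' * r)^2 := by gcongr
        _ = (δ' * r)/2 := by field_simp
    linarith
  have hnonneg : ∀ᵐ T ∂(P F n m), ∀ (i : Fin n) (j : Fin m), 0 ≤ T i j := by
    rw [ae_all_iff]; intro i
    rw [ae_all_iff]; intro j
    exact (mp_eval F i j).quasiMeasurePreserving.ae h0
  have hle : ∀ᵐ T ∂(P F n m), optMakespan T ≤ U T := by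
    filter_upwards [hnonneg] with T hT
    have hU : U T = (τ + M T / n) * ((n:ℝ) + m - 1) + 2 * m * (m * R T) := by
      simp only [U]; field_simp; ring
    rw [hU]
    refine opt_bound hn hm T (R T) (τ + M T / n) hT ?_ ?_
    · intro i j
      have h1 : T i j ≤ B' + v B' (T i j) := by
        have := le_max_left (T i j - B') 0
        unfold v; linarith
      have h2 : (v B' (T i j))^2 ≤ W' T := by
        have h3 : (v B' (T i j))^2 ≤ ∑ j, (v B' (T i j))^2 :=
          Finset.single_le_sum (f := fun j => (v B' (T i j))^2) (fun _ _ => sq_nonneg _) (Finset.mem_univ j)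
        have h4 : ∑ j, (v B' (T i j))^2 ≤ W' T :=
          Finset.single_le_sum (f := fun i => ∑ j, (v B' (T i j))^2) (fun _ _ => Finset.sum_nonneg fun _ _ => sq_nonneg _) (Finset.mem_univ i)
        linarith
      have h5 : v B' (T i j) ≤ W' T / (2 * (δ' * r)) + (δ' * r)/2 := by
        have hs : 0 < δ' * r := by positivity
        have : v B' (T i j) ≤ (v B' (T i j))^2 / (2 * (δ' * r)) + (δ' * r)/2 := by
          have h6 := sq_nonneg (v B' (T i j) - δ' * r)
          rw [div_add_div _ _ (by positivity) (by norm_num), le_div_iff₀ (by positivity)]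
          nlinarith
        have h7 : (v B' (T i j))^2 / (2 * (δ' * r)) ≤ W' T / (2 * (δ' * r)) := by gcongr
        linarith
      have h8 : R T = B' + (W' T / (2 * (δ' * r)) + (δ' * r)/2) := by
        simp only [R]; ring
      rw [h8]; linarith
    · intro j
      have hcs : ∑ i, T i j = n * τ + cs F (u B) j T + cs F (v B) j T := by
        simp only [cs, Finset.sum_sub_distrib]
        rw [hτuv]
        have : ∑ i, T i j = ∑ i, (u B (T i j) + v B (T i j)) := Finset.sum_congr rfl fun i _ => (u_add_v _ _).symm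
        rw [this, Finset.sum_add_distrib]
        simp
        ring
      have h1 : cs F (u B) j T ≤ (1/t) * (Y T / K - 1 + Real.log K) := by
        have hY0 : Real.exp (t * cs F (u B) j T) ≤ Y T :=
          Finset.single_le_sum (f := fun j => Real.exp (t * cs F (u B) j T)) (fun _ _ => (Real.exp_pos _).le) (Finset.mem_univ j)
        have hYpos : 0 < Y T := lt_of_lt_of_le (Real.exp_pos _) hY0
        have h2 : t * cs F (u B) j T ≤ Real.log (Y T) := by
          rw [Real.le_log_iff_exp_le hYpos]; exact hY0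
        have h3 : Real.log (Y T) ≤ Y T / K - 1 + Real.log K := by
          have := Real.log_le_sub_one_of_pos (div_pos hYpos hK0)
          rw [Real.log_div hYpos.ne' hK0.ne'] at this
          linarith
        rw [one_div, ← div_eq_inv_mul, le_div_iff₀ ht0]
        linarith
      have h2 : cs F (v B) j T ≤ W T / (2 * (δ * r)) + (δ * r)/2 := by
        have hs : 0 < δ * r := by positivity
        have hW0 : (cs F (v B) j T)^2 ≤ W T :=
          Finset.single_le_sum (f := fun j => (cs F (v B) j T)^2) (fun _ _ => sq_nonneg _) (Finset.mem_univ j)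
        have : cs F (v B) j T ≤ (cs F (v B) j T)^2 / (2 * (δ * r)) + (δ * r)/2 := by
          have h6 := sq_nonneg (cs F (v B) j T - δ * r)
          rw [div_add_div _ _ (by positivity) (by norm_num), le_div_iff₀ (by positivity)]
          nlinarith
        have h7 : (cs F (v B) j T)^2 / (2 * (δ * r)) ≤ W T / (2 * (δ * r)) := by gcongr
        linarith
      rw [hcs, div_le_iff₀ hn']
      have : (τ + M T / n) * n = n * τ + M T := by field_simp
      rw [this]
      have h8 : M T = (1/t) * (Y T / K - 1 + Real.log K) + (W T / (2 * (δ * r)) + (δ * r)/2) := by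
        simp only [M]; field_simp; ring
      rw [h8]; linarith
  have hge : ∀ᵐ T ∂(P F n m), 0 ≤ optMakespan T := by
    filter_upwards [hnonneg] with T hT using opt_nonneg T hT
  have hint : Integrable (fun T : Fin n → Fin m → ℝ => optMakespan T) (P F n m) := by
    refine hUint.mono' measurable_opt.aestronglyMeasurable ?_
    filter_upwards [hle, hge] with T h1 h2
    rw [Real.norm_of_nonneg h2]; exact h1
  refine ⟨hint, ?_⟩
  have hE : ∫ T, optMakespan T ∂(P F n m) ≤ ∫ T, U T ∂(P F n m) := integral_mono_ae hint hUint hle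
  have hE2 : ∫ T, U T ∂(P F n m) = (((n:ℝ) + m - 1)/n) * ∫ T, M T ∂(P F n m) + (2 * m * m) * ∫ T, R T ∂(P F n m) + τ * ((n:ℝ) + m - 1) := hUE
  rw [hE2] at hE
  unfold expError
  have hMnn : 0 ≤ B * q * (Real.log m + 1/8) + δ * r := by
    have : 0 ≤ Real.log m := Real.log_nonneg hm1
    positivity
  have hfac : ((n:ℝ) + m - 1)/n ≤ 2 := by
    rw [div_le_iff₀ hn']; linarith
  have hfac0 : 0 ≤ ((n:ℝ) + m - 1)/n := div_nonneg (by linarith) hn'.le
  have h1 : (((n:ℝ) + m - 1)/n) * ∫ T, M T ∂(P F n m) ≤ 2 * (B * q * (Real.log m + 1/8) + δ * r) :=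
    (mul_le_mul_of_nonneg_left hME hfac0).trans (mul_le_mul_of_nonneg_right hfac hMnn)
  have h3 : (2 * m * m) * ∫ T, R T ∂(P F n m) ≤ (2 * m * m) * (B' + δ' * r) := mul_le_mul_of_nonneg_left hRE (by positivity)
  change (∫ T, optMakespan T ∂(P F n m)) - ((n:ℝ) + m - 1) * τ ≤ _
  calc (∫ T, optMakespan T ∂(P F n m)) - ((n:ℝ) + m - 1) * τ
      ≤ 2 * (B * q * (Real.log m + 1/8) + δ * r) + (2 * m * m) * (B' + δ' * r) := by linarith
    _ = _ := by ring

end Pool.Agent.H0.Flow
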