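import Mathlib
import Pool.Agent.H0.Flow.Prob

set_option autoImplicit false
open MeasureTheory ProbabilityTheory Filter Topology

namespace Pool.Agent.H0.Flow

theorem tail (F : Measure ℝ) [IsProbabilityMeasure F] (hF : MemLp id 2 F) (δ : ℝ) (hδ : 0 < δ) :
    ∃ B : ℝ, 0 < B ∧ ∫ x, (v B x)^2 ∂F ≤ δ^2 := by
  have h : Tendsto (fun N : ℕ => ∫ x, (v N x)^2 ∂F) atTop (𝓝 (∫ x, (0:ℝ) ∂F)) := by
    refine tendsto_integral_of_dominated_convergence (fun x => x^2) ?_ ?_ ?_ ?_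
    · intro N; exact ((measurable_v N).pow_const 2).aestronglyMeasurable
    · exact hF.integrable_sq
    · intro N
      refine Eventually.of_forall fun x => ?_
      simp only [Real.norm_eq_abs, abs_pow, v]
      rw [abs_of_nonneg (le_max_right _ _), ← sq_abs x]
      refine pow_le_pow_left₀ (le_max_right _ _) (max_le ?_ (abs_nonneg _)) 2
      have := le_abs_self x
      have h2 : (0:ℝ) ≤ N := Nat.cast_nonneg N
      linarith
    · refine Eventually.of_forall fun x => ?_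
      obtain ⟨N0, hN0⟩ := exists_nat_gt x
      refine tendsto_const_nhds.congr' ?_
      filter_upwards [eventually_ge_atTop N0] with N hN
      have : (N0:ℝ) ≤ N := by exact_mod_cast hN
      simp only [v]
      rw [max_eq_right (by linarith)]
      norm_num
  simp only [integral_zero] at h
  have h2 := h.eventually (gt_mem_nhds (show (0:ℝ) < δ^2 by positivity))
  obtain ⟨N, hN, hN1⟩ := (h2.and (eventually_gt_atTop 0)).exists
  exact ⟨N, by exact_mod_cast hN1, hN.le⟩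

theorem small (F : Measure ℝ) [IsProbabilityMeasure F] (h0 : ∀ᵐ x ∂F, 0 ≤ x) (hF : MemLp id 2 F) (c : ℝ) (hc : 0 < c) :
    ∃ m₀ : ℕ, ∀ m ≥ m₀, ∃ n₀ : ℕ, ∀ n ≥ n₀,
      Integrable (fun T : Fin n → Fin m → ℝ => optMakespan T) (Measure.pi fun _ => Measure.pi fun _ => F) ∧
      expError F m n < c * Real.sqrt (m * n) := by
  obtain ⟨B, hB, hvB⟩ := tail F hF (c/16) (by positivity)
  have hε : 0 < c / (32 * B) := by positivity
  have h1 : ∀ᶠ m : ℕ in atTop, Real.log m ≤ c / (32 * B) * Real.sqrt m := by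
    have := (isLittleO_log_rpow_atTop (show (0:ℝ) < 1/2 by norm_num)).bound hε
    have h2 := tendsto_natCast_atTop_atTop (R := ℝ) |>.eventually this
    filter_upwards [h2] with m hm
    rw [Real.sqrt_eq_rpow]
    have h3 : (0:ℝ) ≤ (m:ℝ)^(1/2:ℝ) := by positivity
    rw [Real.norm_of_nonneg h3] at hm
    exact (le_abs_self _).trans hm
  have h2 : ∀ᶠ m : ℕ in atTop, 1/8 ≤ c / (32 * B) * Real.sqrt m := by
    have h3 : Tendsto (fun m : ℕ => c / (32 * B) * Real.sqrt m) atTop atTop := by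
      refine Tendsto.const_mul_atTop hε ?_
      exact Real.tendsto_sqrt_atTop.comp tendsto_natCast_atTop_atTop
    exact h3.eventually_ge_atTop _
  obtain ⟨m₀, hm₀⟩ := eventually_atTop.1 (h1.and (h2.and (eventually_gt_atTop 0)))
  refine ⟨m₀, fun m hm => ?_⟩
  obtain ⟨hlog, h18, hmpos⟩ := hm₀ m hm
  have hm' : (0:ℝ) < m := by exact_mod_cast hmpos
  have hm1 : (1:ℝ) ≤ m := by exact_mod_cast hmpos
  obtain ⟨B', hB', hvB'⟩ := tail F hF (c/(16*m^2)) (by positivity)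
  obtain ⟨n₁, hn₁⟩ := exists_nat_gt ((16 * m^2 * B' / c)^2)
  refine ⟨max n₁ m, fun n hn => ?_⟩
  have hnm : m ≤ n := le_trans (le_max_right _ _) hn
  have hnn : n₁ ≤ n := le_trans (le_max_left _ _) hn
  have hn' : ((16 * m^2 * B' / c)^2) < n := lt_of_lt_of_le hn₁ (by exact_mod_cast hnn)
  have hnpos : (0:ℝ) < n := lt_of_le_of_lt (sq_nonneg _) hn'
  obtain ⟨hint, hb⟩ := main_bound F (n := n) h0 hF hmpos hnm B (c/16) B' (c/(16*m^2)) hB (by positivity) hB'.le (by positivity) hvB hvB'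
  refine ⟨hint, lt_of_le_of_lt hb ?_⟩
  have hs : Real.sqrt (m * n) = Real.sqrt m * Real.sqrt n := Real.sqrt_mul hm'.le _
  have hsn : 0 < Real.sqrt n := Real.sqrt_pos.2 hnpos
  have hsm : 1 ≤ Real.sqrt m := by rw [Real.one_le_sqrt]; exact hm1
  have hsn2 : 16 * m^2 * B' / c < Real.sqrt n := by
    rw [Real.lt_sqrt (by positivity)]; exact hn'
  rw [hs]
  set a := Real.sqrt m
  set b := Real.sqrt n
  have hab : 0 < a * b := by positivity
  have e1 : 2 * (B * b * (Real.log m + 1/8)) ≤ c/8 * (a*b) := by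
    have : Real.log m + 1/8 ≤ 2 * (c / (32 * B) * a) := by linarith
    calc 2 * (B * b * (Real.log m + 1/8)) ≤ 2 * (B * b * (2 * (c / (32 * B) * a))) := by gcongr
      _ = c/8 * (a*b) := by field_simp; ring
  have e3 : 2 * m^2 * B' ≤ c/8 * (a*b) := by
    rw [div_lt_iff₀ hc] at hsn2
    have : b ≤ a * b := by nlinarith
    nlinarith
  have e4 : 2 * m^2 * (c/(16*m^2) * (a*b)) = c/8 * (a*b) := by field_simp; ring
  rw [e4]
  nlinarith

theorem not_lower (F : Measure ℝ) [IsProbabilityMeasure F] (h0 : ∀ᵐ x ∂F, 0 ≤ x) (hF : MemLp id 2 F) :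
    ¬ ∃ c : ℝ, 0 < c ∧ ∃ n₀ : ℕ, ∀ m n : ℕ, 3 ≤ m → n₀ ≤ n → c * Real.sqrt (m * n) ≤ expError F m n := by
  rintro ⟨c, hc, n₀, h⟩
  obtain ⟨m₀, hm₀⟩ := small F h0 hF c hc
  obtain ⟨n₁, hn₁⟩ := hm₀ (max m₀ 3) (le_max_left _ _)
  have h1 := (hn₁ (max n₁ n₀) (le_max_left _ _)).2
  have h2 := h (max m₀ 3) (max n₁ n₀) (le_max_right _ _) (le_max_right _ _)
  exact absurd (lt_of_le_of_lt h2 h1) (lt_irrefl _)

end Pool.Agent.H0.Flow
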